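import Mathlib

set_option autoImplicit false

namespace Pool.Agent.Results.MP_4adf9f_co.NonDesarguesian

/-- Desargues' theorem: if the triangles `a b c` and `a' b' c'` are in perspective from `o`, the
three meeting points of corresponding sides are on a line. -/
def Desarguesian (P L : Type) [Membership P L] : Prop :=
  ∀ (o a b c a' b' c' x y z : P) (la lb lc ab bc ca ab' bc' ca' : L),
    la ≠ lb → lb ≠ lc → lc ≠ la →
    o ∈ la → a ∈ la → a' ∈ la → o ∈ lb → b ∈ lb → b' ∈ lb → o ∈ lc → c ∈ lc → c' ∈ lc →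
    o ≠ a → o ≠ a' → a ≠ a' → o ≠ b → o ≠ b' → b ≠ b' → o ≠ c → o ≠ c' → c ≠ c' →
    (∀ l : L, ¬ (a ∈ l ∧ b ∈ l ∧ c ∈ l)) → (∀ l : L, ¬ (a' ∈ l ∧ b' ∈ l ∧ c' ∈ l)) →
    a ∈ ab → b ∈ ab → b ∈ bc → c ∈ bc → c ∈ ca → a ∈ ca →
    a' ∈ ab' → b' ∈ ab' → b' ∈ bc' → c' ∈ bc' → c' ∈ ca' → a' ∈ ca' →
    ab ≠ ab' → bc ≠ bc' → ca ≠ ca' →
    x ∈ ab → x ∈ ab' → y ∈ bc → y ∈ bc' → z ∈ ca → z ∈ ca' →
    ∃ l : L, x ∈ l ∧ y ∈ l ∧ z ∈ l

/-- `Γ` is a quasiregular collineation group of type (E) of a projective plane of order `k ^ 2`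
(the clauses of the frozen statement). -/
def TypeE (P L : Type) [Finite P] [Finite L] [Membership P L]
    [Configuration.ProjectivePlane P L] (Γ : Subgroup (Equiv.Perm P × Equiv.Perm L)) (k : ℕ) :
    Prop :=
  Configuration.ProjectivePlane.order P L = k ^ 2 ∧
  (∀ g ∈ Γ, ∀ p : P, ∀ l : L, p ∈ l ↔ g.1 p ∈ g.2 l) ∧
  (∀ g ∈ Γ, ∀ p : P, g.1 p = p → ∀ h ∈ Γ, g.1 (h.1 p) = h.1 p) ∧
  (∀ g ∈ Γ, ∀ l : L, g.2 l = l → ∀ h ∈ Γ, g.2 (h.2 l) = h.2 l) ∧
  Nat.card Γ = k ^ 4 - k ∧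
  2 * Nat.card Γ > k ^ 4 + k ^ 2 + 1 ∧
  (∃ p q : P, (¬ ∃ g ∈ Γ, g.1 p = q) ∧
    ∀ r : P, (∃ g ∈ Γ, g.1 p = r) ∨ (∃ g ∈ Γ, g.1 q = r)) ∧
  (∃ l m : L, (¬ ∃ g ∈ Γ, g.2 l = m) ∧
    ∀ r : L, (∃ g ∈ Γ, g.2 l = r) ∨ (∃ g ∈ Γ, g.2 m = r)) ∧
  (∀ p : P, ∃ g ∈ Γ, g.1 p ≠ p) ∧
  (∀ l : L, ∃ g ∈ Γ, g.2 l ≠ l)

/-- `O`, `M` are a point orbit and a line orbit of `Γ` and form a Baer subplane of order `k`: two
points of `O` are joined by a line of `M`, two lines of `M` meet in a point of `O`, lines of `M`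
carry `k + 1` points of `O`, and every other line (point) carries exactly one point of `O` (is on
exactly one line of `M`). -/
def BaerOrbits {P L : Type} [Membership P L] (Γ : Subgroup (Equiv.Perm P × Equiv.Perm L))
    (k : ℕ) (O : Set P) (M : Set L) : Prop :=
  (∃ p, O = {r | ∃ g ∈ Γ, g.1 p = r}) ∧ (∃ l, M = {r | ∃ g ∈ Γ, g.2 l = r}) ∧
  O.ncard = k ^ 2 + k + 1 ∧ M.ncard = k ^ 2 + k + 1 ∧
  (∀ p ∈ O, ∀ q ∈ O, p ≠ q → ∃ l ∈ M, p ∈ l ∧ q ∈ l) ∧
  (∀ l ∈ M, ∀ m ∈ M, l ≠ m → ∃ p ∈ O, p ∈ l ∧ p ∈ m) ∧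
  (∀ l ∈ M, {p ∈ O | p ∈ l}.ncard = k + 1) ∧ (∀ p ∈ O, {l ∈ M | p ∈ l}.ncard = k + 1) ∧
  (∀ l ∉ M, ∃! p, p ∈ O ∧ p ∈ l) ∧ (∀ p ∉ O, ∃! l, l ∈ M ∧ p ∈ l)

open DihedralGroup

/-- The group `Z13 × S3` of order `78 = 81 - 3`. -/
abbrev A := Multiplicative (ZMod 13)
abbrev Γ := A × DihedralGroup 3

/-- A relative difference set in `Z13 × S3` relative to `S3`. -/
def ρ (a : ZMod 13) : Option (DihedralGroup 3) :=
  if a = 2 then some (r 0) else if a = 4 then some (r 1) else if a = 5 then some (r 2)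
  else if a = 6 then some (r 1) else if a = 7 then some (sr 0) else if a = 8 then some (sr 0)
  else if a = 10 then some (r 0) else if a = 11 then some (sr 0) else if a = 12 then some (r 2)
  else none

def D0 (a : ZMod 13) : Bool := a = 0 || a = 1 || a = 3 || a = 9

def P : Type := A ⊕ Γ
def L : Type := A ⊕ Γ

instance : Fintype P := inferInstanceAs (Fintype (A ⊕ Γ))
instance : Fintype L := inferInstanceAs (Fintype (A ⊕ Γ))
instance : DecidableEq P := inferInstanceAs (DecidableEq (A ⊕ Γ))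
instance : DecidableEq L := inferInstanceAs (DecidableEq (A ⊕ Γ))

def inc : (A ⊕ Γ) → (A ⊕ Γ) → Bool
  | .inl i, .inl j => D0 (Multiplicative.toAdd (i⁻¹ * j))
  | .inr g, .inl j => g.1 = j
  | .inl i, .inr h => i = h.1
  | .inr g, .inr h => ρ (Multiplicative.toAdd (h⁻¹ * g).1) = some (h⁻¹ * g).2

def act (g : Γ) : (A ⊕ Γ) → (A ⊕ Γ)
  | .inl i => .inl (g.1 * i)
  | .inr h => .inr (g * h)

lemma act_one (x : A ⊕ Γ) : act 1 x = x := by cases x <;> simp [act]
lemma act_mul (g h : Γ) (x : A ⊕ Γ) : act (g * h) x = act g (act h x) := by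
  cases x <;> simp [act, mul_assoc]

lemma inc_act (g : Γ) (p l : A ⊕ Γ) : inc (act g p) (act g l) = inc p l := by
  rcases p with i | a <;> rcases l with j | h <;> simp only [act, inc]
  · congr 2; group
  · simp
  · simp
  · have : (g * h)⁻¹ * (g * a) = h⁻¹ * a := by group
    rw [this]

def perm (g : Γ) : Equiv.Perm (A ⊕ Γ) where
  toFun := act g
  invFun := act g⁻¹
  left_inv x := by rw [← act_mul]; simp [act_one]
  right_inv x := by rw [← act_mul]; simp [act_one]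

def φ : Γ →* Equiv.Perm P × Equiv.Perm L where
  toFun g := (perm g, perm g)
  map_one' := by ext x <;> exact act_one x
  map_mul' g h := by ext x <;> exact act_mul g h x

instance : Membership P L := ⟨fun l p => inc p l = true⟩

lemma mem_iff (p : P) (l : L) : p ∈ l ↔ inc p l = true := Iff.rfl

lemma rep (l : A ⊕ Γ) : ∃ g : Γ, l = act g (.inl 1) ∨ l = act g (.inr 1) := by
  rcases l with j | h
  · exact ⟨(j, 1), Or.inl (by simp [act])⟩
  · exact ⟨h, Or.inr (by simp [act])⟩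

lemma uniq1 : ∀ l : A ⊕ Γ, l ≠ .inl 1 → ∀ p, inc p (.inl 1) = true → inc p l = true →
    ∀ q, inc q (.inl 1) = true → inc q l = true → p = q := by decide +kernel
lemma uniq2 : ∀ l : A ⊕ Γ, l ≠ .inr 1 → ∀ p, inc p (.inr 1) = true → inc p l = true →
    ∀ q, inc q (.inr 1) = true → inc q l = true → p = q := by decide +kernel
lemma ex1 : ∀ l : A ⊕ Γ, ∃ p, inc p (.inl 1) = true ∧ inc p l = true := by decide +kernel
lemma ex2 : ∀ l : A ⊕ Γ, ∃ p, inc p (.inr 1) = true ∧ inc p l = true := by decide +kernel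

lemma act_inv (g : Γ) (x : A ⊕ Γ) : act g (act g⁻¹ x) = x := (perm g).right_inv x

lemma uniq (l m p q : A ⊕ Γ) (h : l ≠ m) (h1 : inc p l = true) (h2 : inc q l = true)
    (h3 : inc p m = true) (h4 : inc q m = true) : p = q := by
  obtain ⟨g, hg⟩ := rep l
  rw [← act_inv g p, ← act_inv g q]
  rw [← act_inv g p] at h1 h3
  rw [← act_inv g q] at h2 h4
  rw [← act_inv g m] at h h3 h4
  rcases hg with rfl | rfl <;> rw [inc_act] at h1 h2 h3 h4
  · rw [uniq1 (act g⁻¹ m) (fun e => h (by rw [e])) _ h1 h3 _ h2 h4]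
  · rw [uniq2 (act g⁻¹ m) (fun e => h (by rw [e])) _ h1 h3 _ h2 h4]

lemma ex (l m : A ⊕ Γ) : ∃ p, inc p l = true ∧ inc p m = true := by
  obtain ⟨g, hg⟩ := rep l
  rw [← act_inv g m]
  rcases hg with rfl | rfl
  · obtain ⟨p, hp⟩ := ex1 (act g⁻¹ m)
    exact ⟨act g p, by rw [inc_act, inc_act]; exact hp⟩
  · obtain ⟨p, hp⟩ := ex2 (act g⁻¹ m)
    exact ⟨act g p, by rw [inc_act, inc_act]; exact hp⟩

lemma nd1 : ∀ l : A ⊕ Γ, ∃ p : A, ¬ inc (.inl p) l = true := by decide +kernel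
lemma nd2 : ∀ p : A ⊕ Γ, ∃ l : A, ¬ inc p (.inl l) = true := by decide +kernel

noncomputable instance hp : Configuration.HasPoints P L where
  exists_point l := by obtain ⟨p, hp⟩ := nd1 l; exact ⟨.inl p, hp⟩
  exists_line p := by obtain ⟨l, hl⟩ := nd2 p; exact ⟨.inl l, hl⟩
  eq_or_eq := by
    intro p q l m h1 h2 h3 h4
    by_cases h : l = m
    · exact Or.inr h
    · exact Or.inl (uniq l m p q h h1 h2 h3 h4)
  mkPoint := fun {l m} _ => (ex l m).choose
  mkPoint_ax := fun {l m} _ => (ex l m).choose_spec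

def b (n : ZMod 13) : A ⊕ Γ := .inl (Multiplicative.ofAdd n)

noncomputable instance plane : Configuration.ProjectivePlane P L :=
  { hp, Configuration.HasPoints.hasLines (P := P) (L := L) rfl with
    exists_config := ⟨b 2, b 0, b 1, b 5, b 1, b 9, by
      simp only [mem_iff]; decide +kernel⟩ }

lemma cardP : Fintype.card P = 91 := by
  change Fintype.card (A ⊕ Γ) = 91
  simp [DihedralGroup.card]

lemma order_eq : Configuration.ProjectivePlane.order P L = 9 := by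
  have h := Configuration.ProjectivePlane.card_points P L
  rw [cardP] at h
  nlinarith [h, Nat.lt_or_ge (Configuration.ProjectivePlane.order P L) 9,
    sq_nonneg ((Configuration.ProjectivePlane.order P L : ℤ) - 9)]

lemma φ_inj : Function.Injective φ := by
  intro g h e
  have : act g (.inr 1) = act h (.inr 1) := congrArg (fun x => x.1 (Sum.inr 1 : A ⊕ Γ)) e
  simpa [act] using this

lemma quasi (g h : Γ) (x : A ⊕ Γ) (e : act g x = x) : act g (act h x) = act h x := by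
  rcases x with i | a <;> simp only [act, Sum.inl.injEq, Sum.inr.injEq] at e ⊢
  · have : g.1 = 1 := by simpa using e
    simp [this]
  · have : g = 1 := by simpa using e
    simp [this]

lemma moves (x : A ⊕ Γ) : ∃ g : Γ, act g x ≠ x := by
  refine ⟨(Multiplicative.ofAdd 1, 1), ?_⟩
  rcases x with i | a <;> simp only [act, ne_eq, Sum.inl.injEq, Sum.inr.injEq, mul_eq_right]
  · decide
  · decide


/-- the polarity -/
def pol : (A ⊕ Γ) → (A ⊕ Γ)
  | .inl i => .inl i⁻¹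
  | .inr g => .inr (g.1⁻¹, g.2 * sr 0)

lemma pol_pol (x : A ⊕ Γ) : pol (pol x) = x := by
  rcases x with i | g
  · simp [pol]
  · simp [pol, mul_assoc]

lemma rho_sym : ∀ (a : ZMod 13) (u : DihedralGroup 3),
    ρ a = some u ↔ ρ a = some (sr 0 * u⁻¹ * sr 0) := by decide

lemma inc_pol (p l : A ⊕ Γ) : inc p l = inc (pol l) (pol p) := by
  rcases p with i | g <;> rcases l with j | h <;> simp only [pol, inc]
  · congr 2
    rw [inv_inv, mul_comm]
  · rw [decide_eq_decide]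
    constructor
    · rintro rfl; rfl
    · intro h; exact (inv_injective h).symm
  · rw [decide_eq_decide]
    constructor
    · rintro rfl; rfl
    · intro h; exact (inv_injective h).symm
  · rw [decide_eq_decide]
    have e1 : ((g.1⁻¹, g.2 * sr 0)⁻¹ * (h.1⁻¹, h.2 * sr 0) : Γ).1 = (h⁻¹ * g).1 := by
      simp [mul_comm]
    have e2 : ((g.1⁻¹, g.2 * sr 0)⁻¹ * (h.1⁻¹, h.2 * sr 0) : Γ).2
        = sr 0 * ((h⁻¹ * g).2)⁻¹ * sr 0 := by
      simp [mul_assoc]
    rw [e1, e2]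
    exact rho_sym _ _

/-- the polarity as an equivalence -/
def polE : P ≃ L where
  toFun := pol
  invFun := pol
  left_inv := pol_pol
  right_inv := pol_pol

lemma polarity (p q : P) : p ∈ polE q ↔ q ∈ polE p := by
  change inc p (pol q) = true ↔ inc q (pol p) = true
  rw [inc_pol p (pol q), pol_pol]

/-- the element `(a, s)` of the group, as a point or line -/
def gg (a : ZMod 13) (s : DihedralGroup 3) : A ⊕ Γ := .inr (Multiplicative.ofAdd a, s)

lemma tri1 : ∀ l : A ⊕ Γ, ¬ (inc (gg 2 (sr 2)) l = true ∧ inc (gg 11 (sr 2)) l = true ∧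
    inc (gg 10 (r 1)) l = true) := by decide +kernel
lemma tri2 : ∀ l : A ⊕ Γ, ¬ (inc (gg 9 (r 2)) l = true ∧ inc (gg 12 (r 1)) l = true ∧
    inc (gg 4 (r 1)) l = true) := by decide +kernel
lemma tri3 : ∀ l : A ⊕ Γ, ¬ (inc (gg 6 (r 1)) l = true ∧ inc (gg 6 (r 2)) l = true ∧
    inc (gg 1 (r 2)) l = true) := by decide +kernel

lemma not_desarguesian : ¬ Desarguesian P L := by
  intro h
  have H := h (gg 0 (sr 1)) (gg 2 (sr 2)) (gg 11 (sr 2)) (gg 10 (r 1)) (gg 9 (r 2))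
    (gg 12 (r 1)) (gg 4 (r 1)) (gg 6 (r 1)) (gg 6 (r 2)) (gg 1 (r 2))
    (gg 11 (sr 1)) (gg 1 (sr 2)) (gg 5 (r 2)) (gg 4 (r 1)) (gg 0 (r 1)) (gg 8 (r 1)) (gg 7 (r 2))
    (gg 2 (r 1)) (gg 12 (r 2))
  obtain ⟨l, hl⟩ := H
    (by decide +kernel) (by decide +kernel) (by decide +kernel)
    (by change inc _ _ = true; decide +kernel) (by change inc _ _ = true; decide +kernel)
    (by change inc _ _ = true; decide +kernel) (by change inc _ _ = true; decide +kernel)
    (by change inc _ _ = true; decide +kernel) (by change inc _ _ = true; decide +kernel)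
    (by change inc _ _ = true; decide +kernel) (by change inc _ _ = true; decide +kernel)
    (by change inc _ _ = true; decide +kernel)
    (by decide +kernel) (by decide +kernel) (by decide +kernel) (by decide +kernel)
    (by decide +kernel) (by decide +kernel) (by decide +kernel) (by decide +kernel)
    (by decide +kernel)
    tri1 tri2
    (by change inc _ _ = true; decide +kernel) (by change inc _ _ = true; decide +kernel)
    (by change inc _ _ = true; decide +kernel) (by change inc _ _ = true; decide +kernel)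
    (by change inc _ _ = true; decide +kernel) (by change inc _ _ = true; decide +kernel)
    (by change inc _ _ = true; decide +kernel) (by change inc _ _ = true; decide +kernel)
    (by change inc _ _ = true; decide +kernel) (by change inc _ _ = true; decide +kernel)
    (by change inc _ _ = true; decide +kernel) (by change inc _ _ = true; decide +kernel)
    (by decide +kernel) (by decide +kernel) (by decide +kernel)
    (by change inc _ _ = true; decide +kernel) (by change inc _ _ = true; decide +kernel)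
    (by change inc _ _ = true; decide +kernel) (by change inc _ _ = true; decide +kernel)
    (by change inc _ _ = true; decide +kernel) (by change inc _ _ = true; decide +kernel)
  exact tri3 l hl

lemma join0 : ∀ i j : A, ∃ k : A, inc (.inl i) (.inl k) = true ∧ inc (.inl j) (.inl k) = true := by
  decide +kernel
lemma meet0 : ∀ i j : A, ∃ k : A, inc (.inl k) (.inl i) = true ∧ inc (.inl k) (.inl j) = true := by
  decide +kernel
lemma cnt0 : ∀ j : A, (Finset.univ.filter fun i : A => inc (.inl i) (.inl j) = true).card = 4 := by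
  decide +kernel
lemma cnt1 : ∀ i : A, (Finset.univ.filter fun j : A => inc (.inl i) (.inl j) = true).card = 4 := by
  decide +kernel

lemma orbit : {r : A ⊕ Γ | ∃ g : Γ, act g (.inl 1) = r} = Set.range Sum.inl := by
  ext x
  constructor
  · rintro ⟨g, rfl⟩; exact ⟨g.1 * 1, rfl⟩
  · rintro ⟨a, rfl⟩; exact ⟨(a, 1), by simp [act]⟩

lemma cardO : (Set.range (Sum.inl : A → A ⊕ Γ)).ncard = 13 := by
  rw [← Set.image_univ, Set.ncard_image_of_injective _ Sum.inl_injective, Set.ncard_univ,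
    Nat.card_eq_fintype_card]
  rfl

lemma baer : BaerOrbits (P := P) (L := L) φ.range 3 (Set.range (Sum.inl : A → A ⊕ Γ))
    (Set.range (Sum.inl : A → A ⊕ Γ)) := by
  refine ⟨⟨Sum.inl 1, ?_⟩, ⟨Sum.inl 1, ?_⟩, cardO, cardO, ?_, ?_, ?_, ?_, ?_, ?_⟩
  · refine orbit.symm.trans ?_
    ext x
    constructor
    · rintro ⟨g, hg⟩; exact ⟨φ g, ⟨g, rfl⟩, hg⟩
    · rintro ⟨_, ⟨g, rfl⟩, hg⟩; exact ⟨g, hg⟩
  · refine orbit.symm.trans ?_
    ext x
    constructor
    · rintro ⟨g, hg⟩; exact ⟨φ g, ⟨g, rfl⟩, hg⟩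
    · rintro ⟨_, ⟨g, rfl⟩, hg⟩; exact ⟨g, hg⟩
  · rintro _ ⟨i, rfl⟩ _ ⟨j, rfl⟩ -
    obtain ⟨k, hk⟩ := join0 i j
    exact ⟨Sum.inl k, ⟨k, rfl⟩, hk⟩
  · rintro _ ⟨i, rfl⟩ _ ⟨j, rfl⟩ -
    obtain ⟨k, hk⟩ := meet0 i j
    exact ⟨Sum.inl k, ⟨k, rfl⟩, hk⟩
  · rintro _ ⟨j, rfl⟩
    have e : {p : A ⊕ Γ | p ∈ Set.range (Sum.inl : A → A ⊕ Γ) ∧ inc p (.inl j) = true}
        = Sum.inl '' ((Finset.univ.filter fun i : A => inc (.inl i) (.inl j) = true : Finset A) :
          Set A) := by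
      ext x
      constructor
      · rintro ⟨⟨i, rfl⟩, h⟩; exact ⟨i, by simpa using h, rfl⟩
      · rintro ⟨i, h, rfl⟩; exact ⟨⟨i, rfl⟩, by simpa using h⟩
    have h := congrArg Set.ncard e
    rw [Set.ncard_image_of_injective _ Sum.inl_injective, Set.ncard_coe_finset, cnt0] at h
    exact h
  · rintro _ ⟨i, rfl⟩
    have e : {l : A ⊕ Γ | l ∈ Set.range (Sum.inl : A → A ⊕ Γ) ∧ inc (.inl i) l = true}
        = Sum.inl '' ((Finset.univ.filter fun j : A => inc (.inl i) (.inl j) = true : Finset A) :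
          Set A) := by
      ext x
      constructor
      · rintro ⟨⟨j, rfl⟩, h⟩; exact ⟨j, by simpa using h, rfl⟩
      · rintro ⟨j, h, rfl⟩; exact ⟨⟨j, rfl⟩, by simpa using h⟩
    have h := congrArg Set.ncard e
    rw [Set.ncard_image_of_injective _ Sum.inl_injective, Set.ncard_coe_finset, cnt1] at h
    exact h
  · intro l hl
    rcases (l : A ⊕ Γ) with j | h
    · exact absurd ⟨j, rfl⟩ hl
    · refine ⟨Sum.inl h.1, ⟨⟨_, rfl⟩, ?_⟩, ?_⟩
      · show inc (.inl h.1) (.inr h) = true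
        simp [inc]
      · rintro _ ⟨⟨i, rfl⟩, hi⟩
        have : inc (.inl i) (.inr h) = true := hi
        simp only [inc, decide_eq_true_eq] at this
        rw [this]
  · intro p hp
    rcases (p : A ⊕ Γ) with j | g
    · exact absurd ⟨j, rfl⟩ hp
    · refine ⟨Sum.inl g.1, ⟨⟨_, rfl⟩, ?_⟩, ?_⟩
      · show inc (.inr g) (.inl g.1) = true
        simp [inc]
      · rintro _ ⟨⟨i, rfl⟩, hi⟩
        have : inc (.inr g) (.inl i) = true := hi
        simp only [inc, decide_eq_true_eq] at this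
        rw [this]

lemma typeE : TypeE P L φ.range 3 := by
  have hc : Nat.card φ.range = 78 := by
    rw [← Nat.card_congr (MonoidHom.ofInjective φ_inj).toEquiv]
    simp [DihedralGroup.card]
  refine ⟨order_eq, ?_, ?_, ?_, by rw [hc]; norm_num, by rw [hc]; norm_num, ?_, ?_, ?_, ?_⟩
  · rintro _ ⟨g, rfl⟩ p l
    rw [mem_iff, mem_iff, ← inc_act g]; rfl
  · rintro _ ⟨g, rfl⟩ p e _ ⟨h, rfl⟩
    exact quasi g h p e
  · rintro _ ⟨g, rfl⟩ p e _ ⟨h, rfl⟩
    exact quasi g h p e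
  · refine ⟨Sum.inl 1, Sum.inr 1, ?_, fun x => ?_⟩
    · rintro ⟨_, ⟨g, rfl⟩, e⟩
      exact Sum.inl_ne_inr e
    · obtain ⟨g, hg | hg⟩ := rep x
      · exact Or.inl ⟨_, ⟨g, rfl⟩, hg.symm⟩
      · exact Or.inr ⟨_, ⟨g, rfl⟩, hg.symm⟩
  · refine ⟨Sum.inl 1, Sum.inr 1, ?_, fun x => ?_⟩
    · rintro ⟨_, ⟨g, rfl⟩, e⟩
      exact Sum.inl_ne_inr e
    · obtain ⟨g, hg | hg⟩ := rep x
      · exact Or.inl ⟨_, ⟨g, rfl⟩, hg.symm⟩
      · exact Or.inr ⟨_, ⟨g, rfl⟩, hg.symm⟩
  · intro p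
    obtain ⟨g, hg⟩ := moves p
    exact ⟨_, ⟨g, rfl⟩, hg⟩
  · intro p
    obtain ⟨g, hg⟩ := moves p
    exact ⟨_, ⟨g, rfl⟩, hg⟩

/-- A group of type (E) of order `78 = 9² - 3`, isomorphic to `Z13 × S3` (so not abelian), on a
projective plane of order `9` which is not Desarguesian and has a polarity; the short orbits are a
Baer subplane of order `3`. -/
theorem result :
    ∃ (P L : Type) (_ : Finite P) (_ : Finite L) (_ : Membership P L)
      (_ : Configuration.ProjectivePlane P L)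
      (Γ : Subgroup (Equiv.Perm P × Equiv.Perm L)) (O : Set P) (M : Set L),
      TypeE P L Γ 3 ∧
      Nonempty (Γ ≃* Multiplicative (ZMod 13) × DihedralGroup 3) ∧
      BaerOrbits Γ 3 O M ∧
      ¬ Desarguesian P L ∧
      ∃ τ : P ≃ L, ∀ p q : P, p ∈ τ q ↔ q ∈ τ p :=
  ⟨P, L, inferInstance, inferInstance, inferInstance, plane, φ.range, _, _, typeE,
    ⟨(MonoidHom.ofInjective φ_inj).symm⟩, baer, not_desarguesian, polE, polarity⟩

end Pool.Agent.Results.MP_4adf9f_co.NonDesarguesian
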